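import Mathlib

set_option autoImplicit false
set_option linter.unusedSectionVars false

/-!
Integral closedness of rings of integer-valued polynomials on algebras: a negative answer.
-/

namespace Pool.Agent.Results.MP_f9f43c_al.InfiniteResidueFields

open Polynomial

/-- `Int_K(A)`: the polynomials `f` over `K` with `f(a) ∈ A` for all `a ∈ A`; here `A` is a
`D`-subalgebra of the `K`-algebra `B`. -/
def IntK (D K : Type) {B : Type} [CommRing D] [Field K] [Ring B] [Algebra K B] [Algebra D B]
    (A : Subalgebra D B) : Subring K[X] where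
  carrier := {f | ∀ a ∈ A, aeval a f ∈ A}
  mul_mem' := by
    intro f g hf hg a ha
    rw [map_mul]
    exact A.mul_mem (hf a ha) (hg a ha)
  one_mem' := by
    intro a _
    rw [map_one]
    exact A.one_mem
  add_mem' := by
    intro f g hf hg a ha
    rw [map_add]
    exact A.add_mem (hf a ha) (hg a ha)
  zero_mem' := by
    intro a _
    rw [map_zero]
    exact A.zero_mem
  neg_mem' := by
    intro f hf a ha
    rw [map_neg]
    exact A.neg_mem (hf a ha)

/-- The statement of the problem. `B` is a `K`-algebra and `A` a `D`-subalgebra of `B` which is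
finitely generated as a `D`-module and spans `B` over `K`, so that `B = A ⊗_D K`. -/
def Statement : Prop :=
  ∀ (D K B : Type) [CommRing D] [IsDomain D] [IsIntegrallyClosed D] [Field K] [Algebra D K]
    [IsFractionRing D K] [Ring B] [Nontrivial B] [Algebra K B] [Algebra D B] [IsScalarTower D K B]
    (A : Subalgebra D B), Module.Finite D A → Submodule.span K (A : Set B) = ⊤ →
    IsIntegrallyClosed (IntK D K A) → ∀ b : B, IsIntegral D b → b ∈ A

section

variable (D K : Type) [CommRing D] [IsDomain D] [Field K] [Algebra D K] [IsFractionRing D K]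

/-- If all residue fields are infinite, polynomials mapping `D` to `D` have coefficients
in `D`. -/
theorem mem_lifts_of_infinite (hres : ∀ M : Ideal D, M.IsMaximal → Infinite (D ⧸ M))
    (f : K[X]) (hf : ∀ x : D, ∃ y : D, f.eval (algebraMap D K x) = algebraMap D K y) :
    ∃ g : D[X], g.map (algebraMap D K) = f := by
  classical
  set m := f.natDegree + 1 with hm
  -- the ideal of the denominators
  let I : Ideal D :=
    { carrier := {e | ∀ i, ∃ y : D, algebraMap D K e * f.coeff i = algebraMap D K y}
      add_mem' := by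
        intro a b ha hb i
        obtain ⟨y, hy⟩ := ha i
        obtain ⟨z, hz⟩ := hb i
        exact ⟨y + z, by rw [map_add, add_mul, hy, hz, map_add]⟩
      zero_mem' := by
        intro i
        exact ⟨0, by simp⟩
      smul_mem' := by
        intro c a ha i
        obtain ⟨y, hy⟩ := ha i
        exact ⟨c * y, by rw [smul_eq_mul, map_mul, mul_assoc, hy, map_mul]⟩ }
  have hI : I = ⊤ := by
    by_contra hne
    obtain ⟨M, hM, hIM⟩ := Ideal.exists_le_maximal I hne
    have := hres M hM
    have := hM
    obtain ⟨e, he⟩ : ∃ e : Fin m → D ⧸ M, Function.Injective e :=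
      ⟨_, (Infinite.natEmbedding (D ⧸ M)).injective.comp Fin.val_injective⟩
    choose d hd using fun i => Ideal.Quotient.mk_surjective (e i)
    -- the Vandermonde matrix
    let V : Matrix (Fin m) (Fin m) D := Matrix.vandermonde d
    have hV : V.det ∈ I := by
      intro i
      by_cases hi : i < m
      · choose y hy using hf
        have h1 : (V.map (algebraMap D K)).mulVec (fun j => f.coeff j) =
            fun j => algebraMap D K (y (d j)) := by
          funext j
          rw [← hy, Matrix.mulVec, dotProduct, eval_eq_sum_range' (n := m) (by omega),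
            Finset.sum_range]
          refine Finset.sum_congr rfl fun k _ => ?_
          change algebraMap D K (d j ^ (k : ℕ)) * f.coeff k = f.coeff k * _
          rw [map_pow, mul_comm]
        have h2 : (V.map (algebraMap D K)).det • (fun j : Fin m => f.coeff j) =
            (V.map (algebraMap D K)).adjugate.mulVec (fun j => algebraMap D K (y (d j))) := by
          rw [← h1, Matrix.mulVec_mulVec, Matrix.adjugate_mul, Matrix.smul_mulVec,
            Matrix.one_mulVec]
        have h3 := congrFun h2 ⟨i, hi⟩
        refine ⟨V.adjugate.mulVec (fun j => y (d j)) ⟨i, hi⟩, ?_⟩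
        have h4 : (V.map (algebraMap D K)).det = algebraMap D K V.det := by
          rw [RingHom.map_det]; rfl
        have h5 : (V.map (algebraMap D K)).adjugate = V.adjugate.map (algebraMap D K) := by
          have := RingHom.map_adjugate (algebraMap D K) V
          simpa using this.symm
        rw [h4, h5] at h3
        simp only [Pi.smul_apply, smul_eq_mul] at h3
        rw [h3, Matrix.mulVec, dotProduct, Matrix.mulVec, dotProduct, map_sum]
        refine Finset.sum_congr rfl fun k _ => ?_
        rw [Matrix.map_apply, map_mul]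
      · refine ⟨0, ?_⟩
        rw [coeff_eq_zero_of_natDegree_lt (by omega), mul_zero, map_zero]
    have h6 : Ideal.Quotient.mk M V.det ≠ 0 := by
      rw [Matrix.det_vandermonde, map_prod]
      refine Finset.prod_ne_zero_iff.2 fun i _ => ?_
      rw [map_prod]
      refine Finset.prod_ne_zero_iff.2 fun j hj => ?_
      rw [map_sub, hd, hd, sub_ne_zero]
      intro h
      have := he h
      rw [Finset.mem_Ioi] at hj
      exact absurd this (ne_of_gt hj)
    exact h6 (Ideal.Quotient.eq_zero_iff_mem.2 (hIM hV))
  have h1 : (1 : D) ∈ I := by rw [hI]; trivial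
  have h2 : f ∈ lifts (algebraMap D K) := by
    rw [lifts_iff_coeff_lifts]
    intro i
    obtain ⟨y, hy⟩ := h1 i
    rw [map_one, one_mul] at hy
    exact ⟨y, hy.symm⟩
  obtain ⟨g, hg⟩ := h2
  exact ⟨g, by simpa using hg⟩

variable [IsIntegrallyClosed D]

theorem mem_IntK_iff (hres : ∀ M : Ideal D, M.IsMaximal → Infinite (D ⧸ M))
    {B : Type} [Ring B] [Nontrivial B] [Algebra K B] [Algebra D B] [IsScalarTower D K B]
    (A : Subalgebra D B) (hA : Module.Finite D A) (f : K[X]) :
    f ∈ IntK D K A ↔ ∃ g : D[X], g.map (algebraMap D K) = f := by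
  constructor
  · intro hf
    apply mem_lifts_of_infinite D K hres
    intro x
    have h1 : algebraMap D B x ∈ A := A.algebraMap_mem x
    have h2 : aeval (algebraMap D B x) f ∈ A := hf _ h1
    rw [IsScalarTower.algebraMap_apply D K B, aeval_algebraMap_apply] at h2
    have h3 : IsIntegral D (algebraMap K B (f.eval (algebraMap D K x))) := by
      have h4 : IsIntegral D (⟨_, h2⟩ : A) := IsIntegral.of_finite D _
      have h5 := h4.map A.val
      simpa using h5
    have h6 : IsIntegral D (f.eval (algebraMap D K x)) :=
      (isIntegral_algebraMap_iff (FaithfulSMul.algebraMap_injective K B)).1 h3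
    obtain ⟨y, hy⟩ := IsIntegrallyClosed.isIntegral_iff.1 h6
    exact ⟨y, hy.symm⟩
  · rintro ⟨g, rfl⟩ a ha
    rw [aeval_map_algebraMap, ← aeval_subalgebra_coe g A ⟨a, ha⟩]
    exact (aeval (⟨a, ha⟩ : A) g).2

theorem isIntegrallyClosed_IntK (hres : ∀ M : Ideal D, M.IsMaximal → Infinite (D ⧸ M))
    {B : Type} [Ring B] [Nontrivial B] [Algebra K B] [Algebra D B] [IsScalarTower D K B]
    (A : Subalgebra D B) (hA : Module.Finite D A) : IsIntegrallyClosed (IntK D K A) := by
  let φ : D[X] →+* IntK D K A := (mapRingHom (algebraMap D K)).codRestrict (IntK D K A)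
    (fun g => (mem_IntK_iff D K hres A hA _).2 ⟨g, rfl⟩)
  have hφ : Function.Bijective φ := by
    constructor
    · intro g h hgh
      have h1 : g.map (algebraMap D K) = h.map (algebraMap D K) := congrArg Subtype.val hgh
      exact map_injective _ (IsFractionRing.injective D K) h1
    · rintro ⟨f, hf⟩
      obtain ⟨g, hg⟩ := (mem_IntK_iff D K hres A hA _).1 hf
      exact ⟨g, Subtype.ext hg⟩
  exact IsIntegrallyClosed.of_equiv (RingEquiv.ofBijective φ hφ)

end

section

variable (D K : Type) [CommRing D] [IsDomain D] [Field K] [Algebra D K] [IsFractionRing D K]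

/-- the ring of the pairs `(a, b)` of elements of `D` with `a ≡ b` modulo `t` -/
def pairs (t : D) : Subalgebra D (K × K) where
  carrier := {p | ∃ x z : D, p = (algebraMap D K x, algebraMap D K (x + t * z))}
  mul_mem' := by
    rintro _ _ ⟨x, z, rfl⟩ ⟨x', z', rfl⟩
    refine ⟨x * x', x * z' + z * x' + t * z * z', ?_⟩
    ext
    · simp
    · simp only [Prod.mk_mul_mk, ← map_mul]
      congr 1
      ring
  add_mem' := by
    rintro _ _ ⟨x, z, rfl⟩ ⟨x', z', rfl⟩
    refine ⟨x + x', z + z', ?_⟩
    ext
    · simp
    · simp only [Prod.mk_add_mk, ← map_add]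
      congr 1
      ring
  algebraMap_mem' := by
    intro x
    refine ⟨x, 0, ?_⟩
    ext
    · simp
    · simp

theorem pairs_finite (t : D) : Module.Finite D (pairs D K t) := by
  let L : D × D →ₗ[D] pairs D K t :=
    { toFun := fun p => ⟨(algebraMap D K p.1, algebraMap D K (p.1 + t * p.2)), p.1, p.2, rfl⟩
      map_add' := by
        intro p q
        apply Subtype.ext
        ext
        · simp
        · simp only [Prod.fst_add, Prod.snd_add, Subalgebra.coe_add, Prod.mk_add_mk, ← map_add]
          congr 1
          ring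
      map_smul' := by
        intro c p
        apply Subtype.ext
        change (algebraMap D K (c * p.1), algebraMap D K (c * p.1 + t * (c * p.2))) =
          c • (algebraMap D K p.1, algebraMap D K (p.1 + t * p.2))
        rw [Prod.smul_mk, Algebra.smul_def, Algebra.smul_def, ← map_mul, ← map_mul]
        congr 2
        ring }
  refine Module.Finite.of_surjective L ?_
  rintro ⟨_, x, z, rfl⟩
  exact ⟨(x, z), rfl⟩

theorem pairs_span (t : D) (ht : t ≠ 0) :
    Submodule.span K (pairs D K t : Set (K × K)) = ⊤ := by
  have ht' : algebraMap D K t ≠ 0 := by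
    rwa [Ne, map_eq_zero_iff _ (IsFractionRing.injective D K)]
  rw [eq_top_iff]
  rintro ⟨a, b⟩ -
  have h1 : ((1 : K), (1 : K)) ∈ Submodule.span K (pairs D K t : Set (K × K)) :=
    Submodule.subset_span ⟨1, 0, by simp⟩
  have h2 : ((0 : K), algebraMap D K t) ∈ Submodule.span K (pairs D K t : Set (K × K)) :=
    Submodule.subset_span ⟨0, 1, by simp⟩
  have h3 := Submodule.add_mem _ (Submodule.smul_mem _ a h1)
    (Submodule.smul_mem _ ((b - a) / algebraMap D K t) h2)
  have h4 : (a, b) = a • ((1 : K), (1 : K)) +
      ((b - a) / algebraMap D K t) • ((0 : K), algebraMap D K t) := by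
    ext
    · simp
    · simp only [Prod.smul_mk, smul_eq_mul, Prod.mk_add_mk]
      field_simp
      ring
  rw [h4]
  exact h3

theorem pairs_not_mem (t : D) (htu : ¬ IsUnit t) : ((1 : K), (0 : K)) ∉ pairs D K t := by
  rintro ⟨x, z, h⟩
  rw [Prod.mk.injEq] at h
  have hinj := IsFractionRing.injective D K
  have h1 : x = 1 := by
    apply hinj
    rw [map_one]
    exact h.1.symm
  have h2 : x + t * z = 0 := by
    apply hinj
    rw [map_zero]
    exact h.2.symm
  apply htu
  refine IsUnit.of_mul_eq_one (-z) ?_
  rw [h1] at h2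
  linear_combination -h2

theorem pairs_integral : IsIntegral D ((1 : K), (0 : K)) := by
  refine ⟨X ^ 2 - X, ?_, ?_⟩
  · exact (monic_X_pow 2).sub_of_left (by rw [degree_X_pow, degree_X]; norm_num)
  · rw [eval₂_sub, eval₂_X_pow, eval₂_X]
    ext
    · simp
    · simp

end

/-- (1) Let `D` be an integrally closed domain, not a field, all of whose residue fields are
infinite. Then `Int_K(A)` is integrally closed for every torsion-free module-finite
`D`-algebra `A`, whereas there is such an algebra, even a commutative reduced one, with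
`A ≠ A'`. (2) Hence the answer to the problem is negative. -/
theorem result :
    (∀ (D K : Type) [CommRing D] [IsDomain D] [IsIntegrallyClosed D] [Field K] [Algebra D K]
      [IsFractionRing D K], (∀ M : Ideal D, M.IsMaximal → Infinite (D ⧸ M)) →
      (∀ (B : Type) [Ring B] [Nontrivial B] [Algebra K B] [Algebra D B] [IsScalarTower D K B]
        (A : Subalgebra D B), Module.Finite D A → IsIntegrallyClosed (IntK D K A)) ∧
      (∀ t : D, t ≠ 0 → ¬ IsUnit t → Module.Finite D (pairs D K t) ∧
        Submodule.span K (pairs D K t : Set (K × K)) = ⊤ ∧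
        ∃ b : K × K, IsIntegral D b ∧ b ∉ pairs D K t)) ∧
    ¬ Statement := by
  have key : (∀ (D K : Type) [CommRing D] [IsDomain D] [IsIntegrallyClosed D] [Field K]
      [Algebra D K] [IsFractionRing D K], (∀ M : Ideal D, M.IsMaximal → Infinite (D ⧸ M)) →
      (∀ (B : Type) [Ring B] [Nontrivial B] [Algebra K B] [Algebra D B] [IsScalarTower D K B]
        (A : Subalgebra D B), Module.Finite D A → IsIntegrallyClosed (IntK D K A)) ∧
      (∀ t : D, t ≠ 0 → ¬ IsUnit t → Module.Finite D (pairs D K t) ∧
        Submodule.span K (pairs D K t : Set (K × K)) = ⊤ ∧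
        ∃ b : K × K, IsIntegral D b ∧ b ∉ pairs D K t)) := by
    intro D K _ _ _ _ _ _ hres
    refine ⟨fun B _ _ _ _ _ A hA => isIntegrallyClosed_IntK D K hres A hA, fun t ht htu => ?_⟩
    exact ⟨pairs_finite D K t, pairs_span D K t ht, (1, 0), pairs_integral D K,
      pairs_not_mem D K t htu⟩
  refine ⟨key, fun h => ?_⟩
  have hres : ∀ M : Ideal ℚ[X], M.IsMaximal → Infinite (ℚ[X] ⧸ M) := by
    intro M hM
    have : Nontrivial (ℚ[X] ⧸ M) := Ideal.Quotient.nontrivial_iff.2 hM.ne_top
    exact Infinite.of_injective _ (algebraMap ℚ (ℚ[X] ⧸ M)).injective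
  obtain ⟨h1, h2⟩ := key ℚ[X] (FractionRing ℚ[X]) hres
  obtain ⟨h3, h4, b, h5, h6⟩ := h2 X X_ne_zero not_isUnit_X
  exact h6 (h ℚ[X] (FractionRing ℚ[X]) (FractionRing ℚ[X] × FractionRing ℚ[X]) _ h3 h4
    (h1 _ _ h3) b h5)

end Pool.Agent.Results.MP_f9f43c_al.InfiniteResidueFields
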